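import Pool.Agent.U742.WD.Ds
import Pool.Agent.U463.PV.WHP
import Pool.Agent.TH710.WH.Five

/-!
Specialness, density of rational points and the weak Hilbert property for the closed subvarieties
of the varieties of the vectors whose powers are the values of a polynomial of any degree.
-/

set_option autoImplicit false

open AlgebraicGeometry CategoryTheory
open FF Pool.Agent.W603.LV Pool.Agent.W602.GT Pool.Agent.Y190.BV Pool.Agent.Y190.QP
  Pool.Agent.Y190.GN Pool.Agent.Y216.SV Pool.Agent.U463.PV
open Pool.Agent.TH710.WH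
open Pool.Agent.TH710.SP (IsLinear)

namespace Pool.Agent.U742.WD

section

variable {K : Type} [Field K] [IsAlgClosed K] [CharZero K] {N n m w : ℕ}

/-- points are linear -/
theorem linear_of_pt {M : Type} [Field M] [Algebra K M] {y : Fin (N + 1) → M}
    (h : IsPoint K y) : IsLinear K y := by
  have hinf : Infinite K := inferInstance
  intro u hu v hv c c' hne
  refine ⟨hne, fun G hG hyG => hull_var (Or.inl h) _ ?_ G hG hyG⟩
  intro l hl
  have h1 : lin l (c • u + c' • v) = c * lin l u + c' * lin l v := by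
    unfold lin
    rw [Finset.mul_sum, Finset.mul_sum, ← Finset.sum_add_distrib]
    refine Finset.sum_congr rfl fun i _ => ?_
    simp only [Pi.add_apply, Pi.smul_apply, smul_eq_mul]
    ring
  rw [h1, Pool.Agent.TH710.SP.hull_of_var' hu l hl, Pool.Agent.TH710.SP.hull_of_var' hv l hl,
    mul_zero, mul_zero, add_zero]

/-- **Special varieties and varieties with dense rational points lie in linear subspaces.** -/
theorem concl_all (hm : 2 ≤ m) (hN : 4 * n + (n + 1) ^ 2 < 2 * (N + 1)) {a : Fin (N + 1) → K}
    (ha : Function.Injective a) {k0 : Subfield K} (hk0 : Moving k0 a n)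
    {M : Type} [Field M] [Algebra K M] {y : Fin (N + 1) → M} (hy : SubVar (buchi a n m) M w y)
    (h : Special K M w (fun _ => False) ∨ DenseOver y k0) :
    (∃ e, e * m ≤ n ∧ w ≤ e ∧ InLinearSpace K a n m e y) ∧
      (w = 0 ∨ n < (w + 1) * m → IsLinear K y) := by
  have hn : n ≤ N := by nlinarith
  have hinf : Infinite K := inferInstance
  have hiff : ∀ G : MvPolynomial (Fin (N + 1)) K, IsForm G →
      (W602.GT.val y G = 0 ↔ W602.GT.val y G = 0) := fun _ _ => Iff.rfl
  have h1 : (∃ e, e * m ≤ n ∧ w ≤ e ∧ InLinearSpace K a n m e y) ∧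
      (n < (w + 1) * m → IsLinear K y) := by
    rcases h with h | h
    · obtain ⟨q, c, G0, ζ, hq, hc, -, hdeg, hζ, hyz⟩ :=
        hull_of_special hm hN ha hy.dim h hy.ne hy.mem
      exact concl_of_str hy hiff hq hc hdeg hζ hyz
    · obtain ⟨q, c, G0, ζ, hq, hc, -, hdeg, hζ, hyz⟩ :=
        str_of_dense_over hm hn ha hk0 hy.ne hy.mem h
      exact concl_of_str hy hiff hq hc hdeg hζ hyz
  refine ⟨h1.1, ?_⟩
  rintro (rfl | h2)
  · exact linear_of_pt (isPoint_of_alg hy.ne hy.dim)
  · exact h1.2 h2

end

/-- **Specialness, potential density and the weak Hilbert property.** -/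
theorem whp_all {k : Type} [Field k] [CharZero k]
    (hk : ∃ S : Finset k, IntermediateField.adjoin ℚ (S : Set k) = ⊤)
    {k' : Type} [Field k'] [IsAlgClosed k'] [CharZero k'] [Algebra k k']
    {N n m w : ℕ} (hm : 2 ≤ m)
    (hN : 4 * n + (n + 1) ^ 2 < 2 * (N + 1)) {a : Fin (N + 1) → k'} (ha : Function.Injective a)
    {k0 : Subfield k'} (hk0 : Moving k0 a n)
    (X : Scheme.{0}) [IsIntegral X] (f : X ⟶ Spec (CommRingCat.of k)) [LocallyOfFiniteType f]
    (hX : ∀ x : X, IsIntegrallyClosed (X.presheaf.stalk x))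
    {K : Type} [Field K] [Algebra k K] (hK : HasFunctionField k K X f)
    {L : Type} [Field L] [Algebra k L] [Algebra k' L] [Algebra K L] [IsScalarTower k k' L]
    [IsScalarTower k K L] (hL : LinDisjoint k k' K L)
    {y : Fin (N + 1) → K} (hgen : coords k y = ⊤)
    (hy : SubVar (buchi a n m) L w (fun i => algebraMap K L (y i))) :
    ((Special k' L w (fun _ => False) ∨
      DenseOver (fun i => algebraMap K L (y i)) (⊥ : Subfield k') ∨
      DenseOver (fun i => algebraMap K L (y i)) k0 ∨
      RationalPointsDense k X f ∨ WeakHilbertProperty k X f) →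
      ∃ e, e * m ≤ n ∧ w ≤ e ∧ InLinearSpace k' a n m e (fun i => algebraMap K L (y i))) ∧
    (w = 0 ∨ n < (w + 1) * m →
    [Special k' L w (fun _ => False),
      DenseOver (fun i => algebraMap K L (y i)) (⊥ : Subfield k'),
      DenseOver (fun i => algebraMap K L (y i)) k0,
      RationalPointsDense k X f, WeakHilbertProperty k X f,
      IsLinear k' (fun i => algebraMap K L (y i))].TFAE) := by
  classical
  have hinf : Infinite k' := inferInstance
  have hy0 : y ≠ 0 := by
    rintro rfl
    apply hy.ne
    funext i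
    simp
  have h54 : WeakHilbertProperty k X f → RationalPointsDense k X f := by
    intro h
    have h3 := h 0 (fun i => i.elim0) (fun i => i.elim0) (fun i => i.elim0)
        (fun i => i.elim0) (fun i => i.elim0) (fun i => i.elim0) (fun i => i.elim0)
    refine h3.mono ?_
    rintro x ⟨s, hs, hx, -⟩
    exact ⟨s, hs, hx⟩
  have h42 : RationalPointsDense k X f →
      DenseOver (fun i => algebraMap K L (y i)) (⊥ : Subfield k') := by
    intro h
    refine dense_of_points hk hL hy0 (fun M x G hG => ?_) ⊥
    exact Pool.Agent.Y780.HC.sPts k X f K hK h M x G hG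
  have h23 : DenseOver (fun i => algebraMap K L (y i)) (⊥ : Subfield k') →
      DenseOver (fun i => algebraMap K L (y i)) k0 := by
    rintro ⟨T, hT⟩
    refine ⟨T, fun G hG h => hT G hG fun x hx hxT => h x hx fun i => ?_⟩
    refine Subfield.closure_le.2 ?_ (hxT i)
    rintro z (hz | hz)
    · have h1 : (⊥ : Subfield k') ≤ Subfield.closure ((k0 : Set k') ∪ (T : Set k')) := bot_le
      exact h1 hz
    · exact Subfield.subset_closure (Or.inr hz)
  refine ⟨fun h => ?_, fun hw => ?_⟩
  · refine (concl_all hm hN ha hk0 hy ?_).1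
    rcases h with h | h | h | h | h
    · exact Or.inl h
    · exact Or.inr (h23 h)
    · exact Or.inr h
    · exact Or.inr (h23 (h42 h))
    · exact Or.inr (h23 (h42 (h54 h)))
  tfae_have 1 → 6 := fun h => (concl_all hm hN ha hk0 hy (Or.inl h)).2 hw
  tfae_have 3 → 6 := fun h => (concl_all hm hN ha hk0 hy (Or.inr h)).2 hw
  tfae_have 6 → 1 := fun h => special_of_rational hy.dim (rational_of_linear hy.ne hy.gen h)
  tfae_have 6 → 5 := by
    intro h
    have h1 : PurelyTranscendental k K :=
      rational_of_lin hL hy0 hgen (var_of_linear hy.ne h)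
    exact (whp_of_rational hk h1 X f hK hX).2
  tfae_have 5 → 4 := h54
  tfae_have 4 → 2 := h42
  tfae_have 2 → 3 := h23
  tfae_finish

/-- **Rational maps.** -/
theorem maps_all {k : Type} [Field k] [CharZero k]
    (hk : ∃ S : Finset k, IntermediateField.adjoin ℚ (S : Set k) = ⊤)
    {k' : Type} [Field k'] [IsAlgClosed k'] [CharZero k'] [Algebra k k']
    {N n m w : ℕ} (hm : 2 ≤ m)
    (hN : 4 * n + (n + 1) ^ 2 < 2 * (N + 1)) {a : Fin (N + 1) → k'} (ha : Function.Injective a)
    {k0 : Subfield k'} (hk0 : Moving k0 a n)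
    (X : Scheme.{0}) [IsIntegral X] (f : X ⟶ Spec (CommRingCat.of k)) [LocallyOfFiniteType f]
    {K : Type} [Field K] [Algebra k K] (hK : HasFunctionField k K X f)
    {L : Type} [Field L] [Algebra k L] [Algebra k' L] [Algebra K L] [IsScalarTower k k' L]
    [IsScalarTower k K L] (hL : LinDisjoint k k' K L) (hw : Algebra.trdeg k' L = w)
    {y : Fin (N + 1) → K} (hy0 : y ≠ 0)
    (hy : ∀ l : Rel a n, val (fun i => algebraMap K L (y i)) (buchi a n m l) = 0)
    (h : Special k' L w (fun _ => False) ∨ RationalPointsDense k X f ∨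
      WeakHilbertProperty k X f) :
    ∃ e, e * m ≤ n ∧ InLinearSpace k' a n m e (fun i => algebraMap K L (y i)) := by
  classical
  have hn : n ≤ N := by nlinarith
  have hy0' : (fun i => algebraMap K L (y i)) ≠ 0 := by
    intro h0
    apply hy0
    funext i
    have h1 := congrFun h0 i
    simpa using h1
  have h54 : WeakHilbertProperty k X f → RationalPointsDense k X f := by
    intro h
    have h3 := h 0 (fun i => i.elim0) (fun i => i.elim0) (fun i => i.elim0)
        (fun i => i.elim0) (fun i => i.elim0) (fun i => i.elim0) (fun i => i.elim0)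
    refine h3.mono ?_
    rintro x ⟨s, hs, hx, -⟩
    exact ⟨s, hs, hx⟩
  have hstr : ∃ (q : Polynomial L) (c : L) (G0 : Polynomial k') (ζ : Fin (N + 1) → k'),
      q.Monic ∧ c ≠ 0 ∧ G0 ≠ 0 ∧ q.natDegree * m + G0.natDegree ≤ n ∧
      (∀ i, ζ i ^ m = G0.eval (a i)) ∧
      ∀ i, algebraMap K L (y i) = c * q.eval (algebraMap k' L (a i)) * algebraMap k' L (ζ i) := by
    have h2 : Special k' L w (fun _ => False) ∨ RationalPointsDense k X f := by
      rcases h with h | h | h
      · exact Or.inl h
      · exact Or.inr h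
      · exact Or.inr (h54 h)
    rcases h2 with h | h
    · exact hull_of_special hm hN ha hw h hy0' hy
    · refine str_of_dense_over hm hn ha hk0 hy0' hy ?_
      refine dense_of_points hk hL hy0 (fun M x G hG => ?_) k0
      exact Pool.Agent.Y780.HC.sPts k X f K hK h M x G hG
  obtain ⟨q, c, G0, ζ, hq, hc, -, hdeg, hζ, hyz⟩ := hstr
  exact ⟨q.natDegree, by omega, inLinear_of_str (n := n) (m := m) hc hdeg hζ hyz⟩

end Pool.Agent.U742.WD
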