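import Pool.Agent.U463.PV.Cand

/-!
The vectors over a function field whose `m`-th powers are the values of a polynomial of degree at
most `n`, any `n`: finitely many classes of polynomials modulo `m`-th powers.
-/

set_option autoImplicit false

open Polynomial FF Pool.Agent.W603.LV Pool.Agent.W603.PV Pool.Agent.W602.GT Pool.Agent.Y190.BV
  Pool.Agent.Y190.GN Pool.Agent.U463.PV

namespace Pool.Agent.U742.WD

/-- the part of a polynomial without factors of multiplicity `m` -/
theorem exists_free_irr {F : Type} [Field F] {m : ℕ} (hm : 1 ≤ m) : ∀ (d : ℕ) (H : F[X]), H ≠ 0 →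
    H.natDegree ≤ d → ∃ p Q : F[X], H = p ^ m * Q ∧ ∀ q : F[X], Irreducible q → ¬ q ^ m ∣ Q := by
  intro d
  induction d with
  | zero =>
    intro H hH hd
    refine ⟨1, H, by rw [one_pow, one_mul], fun q hq hdv => ?_⟩
    have h1 := natDegree_le_of_dvd hdv hH
    rw [natDegree_pow] at h1
    have h2 := hq.natDegree_pos
    have h3 : m ≤ m * q.natDegree := Nat.le_mul_of_pos_right _ h2
    omega
  | succ d ih =>
    intro H hH hd
    by_cases hall : ∀ q : F[X], Irreducible q → ¬ q ^ m ∣ H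
    · exact ⟨1, H, by rw [one_pow, one_mul], hall⟩
    · push Not at hall
      obtain ⟨q, hq, H', rfl⟩ := hall
      have hH' : H' ≠ 0 := right_ne_zero_of_mul hH
      rw [natDegree_mul (pow_ne_zero _ hq.ne_zero) hH', natDegree_pow] at hd
      have h2 := hq.natDegree_pos
      have h3 : m ≤ m * q.natDegree := Nat.le_mul_of_pos_right _ h2
      obtain ⟨p, Q, h4, h5⟩ := ih H' hH' (by omega)
      refine ⟨q * p, Q, ?_, h5⟩
      rw [h4, mul_pow, mul_assoc]

section

variable {k L : Type} [Field k] [IsAlgClosed k] [CharZero k] [Field L] [Algebra k L] [IsFF k L]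
  {N n m : ℕ}

/-- the polynomials without factors of multiplicity `m` with power values at the nodes outside
`B` -/
def QSet (m n : ℕ) (a : Fin (N + 1) → L) (j0 : Fin (N + 1)) (B : Finset (Fin (N + 1))) :
    Set L[X] :=
  {Q | Q.natDegree + m * B.card ≤ n ∧ (∀ p : L[X], Irreducible p → ¬ p ^ m ∣ Q) ∧
    Q.eval (a j0) = 1 ∧ ∀ j, j ∉ B → ∃ z : L, z ^ m = Q.eval (a j)}

theorem finite_QSet (hm : 2 ≤ m) {a : Fin (N + 1) → L}
    (ha : Function.Injective a) (Cn : Finset (Fin (N + 1)))
    (hC : 4 * n < Cn.card) (hCc : ∀ j ∈ Cn, ∃ c : k, a j = algebraMap k L c)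
    (S : Finset (Fin (N + 1))) (hS : n ≤ S.card) (hSm : ∀ j ∈ S, ∀ c : k, a j ≠ algebraMap k L c)
    (j0 : Fin (N + 1)) {B : Finset (Fin (N + 1))} (hB : j0 ∉ B) : (QSet m n a j0 B).Finite := by
  classical
  by_cases hBn : m * B.card ≤ n
  swap
  · refine Set.Finite.subset Set.finite_empty ?_
    rintro Q ⟨h1, -⟩
    omega
  have hj0 : j0 ∈ Bᶜ := Finset.mem_compl.2 hB
  obtain ⟨r, hr⟩ : ∃ r, (Bᶜ).card = r + 1 :=
    ⟨(Bᶜ).card - 1, by have := Finset.card_pos.2 ⟨j0, hj0⟩; omega⟩
  let e : Fin (r + 1) ≃ (Bᶜ : Finset (Fin (N + 1))) := (Finset.equivFinOfCardEq hr).symm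
  let b : Fin (r + 1) → L := fun i => a (e i : Fin (N + 1))
  have hb : Function.Injective b := fun i j h => e.injective (Subtype.ext (ha h))
  let sub : Finset (Fin (N + 1)) → Finset (Fin (r + 1)) := fun A =>
    Finset.univ.filter fun i => (e i : Fin (N + 1)) ∈ A
  have hcard : ∀ A : Finset (Fin (N + 1)), A.card ≤ (sub A).card + B.card := by
    intro A
    have h1 : A ⊆ B ∪ (sub A).image (fun i => (e i : Fin (N + 1))) := by
      intro j hj
      by_cases h : j ∈ B
      · exact Finset.mem_union_left _ h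
      · refine Finset.mem_union_right _ (Finset.mem_image.2
          ⟨e.symm ⟨j, Finset.mem_compl.2 h⟩, ?_, ?_⟩)
        · simp only [sub, Finset.mem_filter, Finset.mem_univ, true_and, Equiv.apply_symm_apply]
          exact hj
        · rw [Equiv.apply_symm_apply]
    have h2 := Finset.card_le_card h1
    have h3 := Finset.card_union_le B ((sub A).image (fun i => (e i : Fin (N + 1))))
    have h4 : ((sub A).image (fun i => (e i : Fin (N + 1)))).card ≤ (sub A).card :=
      Finset.card_image_le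
    omega
  have hmB : B.card ≤ m * B.card := Nat.le_mul_of_pos_left _ (by omega)
  have hC1 := hcard Cn
  have hS1 := hcard S
  have hfin := fin_freeS' (k := k) (m := m) (d := n - m * B.card) hm hb (sub Cn) (by omega)
    (fun j hj => hCc _ (Finset.mem_filter.1 hj).2) (sub S) (by omega)
    (fun j hj => hSm _ (Finset.mem_filter.1 hj).2) (e.symm ⟨j0, hj0⟩)
  have hcu : (sub Cn).card ≤ r + 1 := by
    have := Finset.card_le_univ (sub Cn)
    rwa [Fintype.card_fin] at this
  have hbj0 : b (e.symm ⟨j0, hj0⟩) = a j0 := by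
    simp only [b, Equiv.apply_symm_apply]
  have key : ∀ Q ∈ QSet m n a j0 B, ∃ z ∈ VSet m (n - m * B.card) b (e.symm ⟨j0, hj0⟩),
      ∀ j, z j ^ m = Q.eval (b j) := by
    rintro Q ⟨h1, h2, h3, h4⟩
    have h5 : ∀ i, ∃ z : L, z ^ m = Q.eval (b i) := fun i =>
      h4 _ (Finset.mem_compl.1 (e i).2)
    choose z hz using h5
    have h6 : ∀ j, (Function.update z (e.symm ⟨j0, hj0⟩) 1) j ^ m = Q.eval (b j) := by
      intro j
      by_cases hj : j = e.symm ⟨j0, hj0⟩
      · subst hj
        rw [Function.update_self, one_pow, hbj0, h3]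
      · rw [Function.update_of_ne hj, hz]
    exact ⟨Function.update z (e.symm ⟨j0, hj0⟩) 1,
      ⟨Function.update_self _ _ _, Q, by omega, h2, h6⟩, h6⟩
  choose! f hf1 hf2 using key
  refine Set.Finite.of_injOn (f := f) (fun Q hQ => hf1 Q hQ) ?_ hfin
  intro Q hQ Q' hQ' h
  refine Polynomial.eq_of_natDegree_lt_card_of_eval_eq Q Q' hb (fun i => ?_) ?_
  · rw [← hf2 Q hQ, ← hf2 Q' hQ', h]
  · rw [Fintype.card_fin]
    have h1 := hQ.1
    have h2 := hQ'.1
    exact max_lt (by omega) (by omega)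

/-- **Finitely many classes.** -/
theorem classes (hm : 2 ≤ m) {a : Fin (N + 1) → L}
    (ha : Function.Injective a) (Cn : Finset (Fin (N + 1)))
    (hC : 4 * n < Cn.card) (hCc : ∀ j ∈ Cn, ∃ c : k, a j = algebraMap k L c)
    (S : Finset (Fin (N + 1))) (hS : n ≤ S.card) (hSm : ∀ j ∈ S, ∀ c : k, a j ≠ algebraMap k L c) :
    ∃ A : Set L[X], A.Finite ∧ (∀ Q ∈ A, Q ≠ 0 ∧ Q.natDegree ≤ n) ∧
      ∀ x : Fin (N + 1) → L, x ≠ 0 → ∀ H : L[X], H.natDegree ≤ n → (∀ j, x j ^ m = H.eval (a j)) →
        ∃ Q ∈ A, ∃ (c : L) (p : L[X]), H = C c * (p ^ m * Q) := by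
  classical
  refine ⟨⋃ (j0 : Fin (N + 1)) (B : Finset (Fin (N + 1))) (_ : j0 ∉ B), QSet m n a j0 B,
    Set.finite_iUnion fun j0 => Set.finite_iUnion fun B => Set.finite_iUnion fun hB =>
      finite_QSet (k := k) hm ha Cn hC hCc S hS hSm j0 hB, ?_, ?_⟩
  · intro Q hQ
    simp only [Set.mem_iUnion] at hQ
    obtain ⟨j0, B, hB, h1, -, h3, -⟩ := hQ
    refine ⟨?_, by omega⟩
    rintro rfl
    rw [eval_zero] at h3
    exact zero_ne_one h3
  · intro x hx H hHd hH
    obtain ⟨j0, hj0⟩ := Function.ne_iff.1 hx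
    have hj0' : x j0 ≠ 0 := hj0
    have hH0 : H ≠ 0 := by
      rintro rfl
      have h1 := hH j0
      rw [eval_zero] at h1
      exact hj0' ((pow_eq_zero_iff (by omega)).1 h1)
    obtain ⟨p, Q, hpQ, hfree⟩ := exists_free_irr (m := m) (by omega) _ H hH0 le_rfl
    have hp : p ≠ 0 := by
      rintro rfl
      rw [zero_pow (by omega), zero_mul] at hpQ
      exact hH0 hpQ
    have hQ : Q ≠ 0 := by
      rintro rfl
      rw [mul_zero] at hpQ
      exact hH0 hpQ
    have hx0 : p.eval (a j0) ≠ 0 ∧ Q.eval (a j0) ≠ 0 := by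
      have h1 : x j0 ^ m = p.eval (a j0) ^ m * Q.eval (a j0) := by
        rw [hH, hpQ, eval_mul, eval_pow]
      have h2 : x j0 ^ m ≠ 0 := pow_ne_zero _ hj0'
      rw [h1] at h2
      refine ⟨?_, right_ne_zero_of_mul h2⟩
      intro h3
      apply h2
      rw [h3, zero_pow (by omega), zero_mul]
    obtain ⟨hp0, hQ0⟩ := hx0
    let B : Finset (Fin (N + 1)) := Finset.univ.filter fun j => p.eval (a j) = 0
    have hB : j0 ∉ B := by
      simp only [B, Finset.mem_filter, Finset.mem_univ, true_and]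
      exact hp0
    have hBc : B.card ≤ p.natDegree := by
      have h1 : B.image a ⊆ p.roots.toFinset := by
        intro t ht
        obtain ⟨j, hj, rfl⟩ := Finset.mem_image.1 ht
        rw [Multiset.mem_toFinset, mem_roots hp]
        exact (Finset.mem_filter.1 hj).2
      have h2 := Finset.card_le_card h1
      rw [Finset.card_image_of_injective _ ha] at h2
      exact h2.trans ((Multiset.toFinset_card_le _).trans (card_roots' p))
    have hdeg : H.natDegree = m * p.natDegree + Q.natDegree := by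
      rw [hpQ, natDegree_mul (pow_ne_zero _ hp) hQ, natDegree_pow]
    have hmul : m * B.card ≤ m * p.natDegree := Nat.mul_le_mul_left _ hBc
    refine ⟨C (Q.eval (a j0))⁻¹ * Q, ?_, Q.eval (a j0), p, ?_⟩
    · simp only [Set.mem_iUnion]
      refine ⟨j0, B, hB, ?_, free_mul_C (inv_ne_zero hQ0) hfree, ?_, ?_⟩
      · have h1 := natDegree_C_mul_le (Q.eval (a j0))⁻¹ Q
        omega
      · rw [eval_mul, eval_C, inv_mul_cancel₀ hQ0]
      · intro j hj
        have hpj : p.eval (a j) ≠ 0 := by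
          intro h
          apply hj
          simp only [B, Finset.mem_filter, Finset.mem_univ, true_and]
          exact h
        refine ⟨x j * p.eval (a j0) / (p.eval (a j) * x j0), ?_⟩
        have h1 : x j ^ m = p.eval (a j) ^ m * Q.eval (a j) := by
          rw [hH, hpQ, eval_mul, eval_pow]
        have h2 : x j0 ^ m = p.eval (a j0) ^ m * Q.eval (a j0) := by
          rw [hH, hpQ, eval_mul, eval_pow]
        rw [div_pow, mul_pow, mul_pow, h1, h2, eval_mul, eval_C]
        have h3 := pow_ne_zero m hpj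
        have h4 := pow_ne_zero m hp0
        field_simp
    · rw [hpQ]
      have h1 : (C (Q.eval (a j0)) : L[X]) * C (Q.eval (a j0))⁻¹ = 1 := by
        rw [← C_mul, mul_inv_cancel₀ hQ0, C_1]
      calc p ^ m * Q = (C (Q.eval (a j0)) * C (Q.eval (a j0))⁻¹) * (p ^ m * Q) := by
            rw [h1, one_mul]
        _ = _ := by ring

end

end Pool.Agent.U742.WD
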