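import Pool.Agent.U742.WD.Gen
import Pool.Agent.U742.WD.Ff
import Pool.Agent.Y190.GN.Main
import Pool.Agent.Y216.SV.Pd
import Pool.Agent.Y216.SV.Rc2

/-!
The structure of the closed subvarieties of the power value varieties with a dense set of rational
points over a finitely generated extension of a large field, polynomials of any degree.
-/

set_option autoImplicit false

namespace Pool.Agent.U742.WD

open FF Pool.Agent.W603.LV Pool.Agent.W602.GT Pool.Agent.Y190.BV Pool.Agent.Y190.QP
  Pool.Agent.Y190.GN Pool.Agent.Y216.SV Pool.Agent.TH145.MF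

section

variable {K : Type} [Field K] [IsAlgClosed K] [CharZero K] {N n m w : ℕ}

/-- **Finitely many classes over finitely generated fields.** -/
theorem classes_fg (hm : 2 ≤ m) (hnN : n ≤ N)
    {a : Fin (N + 1) → K} (ha : Function.Injective a) {k0 : Subfield K} (hk : Moving k0 a n)
    (T : Finset K) : ∃ A : Set (Polynomial K), A.Finite ∧ (∀ Q ∈ A, Q ≠ 0 ∧ Q.natDegree ≤ n) ∧
      ∀ x : Fin (N + 1) → K, x ≠ 0 →
        (∀ i, x i ∈ Subfield.closure ((k0 : Set K) ∪ (T : Set K))) →
        (∀ l : Rel a n, val x (buchi a n m l) = 0) →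
        ∃ Q ∈ A, ∃ (c : K) (p : Polynomial K), IQ a hnN m x = Polynomial.C c * (p ^ m * Q) := by
  classical
  obtain ⟨s, Cn, S, hs, hC, hCc, hS, hSm⟩ := hk
  obtain ⟨k1, hk01, hac, hsk1, L, hL, hsL, hTL⟩ :=
    exists_ff k0 s hs (T ∪ Finset.univ.image a)
  have hcz : CharZero k1 := charZero_of_injective_algebraMap (algebraMap ℚ k1).injective
  have haL : ∀ j, a j ∈ L := fun j => hTL _ (Finset.mem_union_right _
    (Finset.mem_image_of_mem _ (Finset.mem_univ _)))
  let a' : Fin (N + 1) → L := fun j => ⟨a j, haL j⟩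
  have ha' : Function.Injective a' := fun i j hij => ha (congrArg Subtype.val hij)
  obtain ⟨A, hA, hA0, hAx⟩ := classes (k := k1) (L := L) (n := n) (m := m) hm ha' Cn hC
    (fun j hj => ⟨⟨a j, hk01 (hCc j hj)⟩, rfl⟩) S hS
    (fun j hj c hc => moves hk01 hac hsk1 (hSm j hj) (by
      have h1 : a j = (c : K) := congrArg Subtype.val hc
      rw [h1]
      exact c.2))
  have hcl : ∀ x ∈ Subfield.closure ((k0 : Set K) ∪ (T : Set K)), x ∈ L := by
    intro x hx
    have h1 : Subfield.closure ((k0 : Set K) ∪ (T : Set K)) ≤ L.toSubfield := by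
      rw [Subfield.closure_le]
      rintro t (ht | ht)
      · exact L.algebraMap_mem ⟨t, hk01 ht⟩
      · exact hTL t (Finset.mem_union_left _ ht)
    exact h1 hx
  refine ⟨(Polynomial.map (algebraMap L K)) '' A, hA.image _, ?_, ?_⟩
  · rintro _ ⟨Q, hQ, rfl⟩
    exact ⟨Polynomial.map_ne_zero (hA0 Q hQ).1,
      (Polynomial.natDegree_map_le).trans (hA0 Q hQ).2⟩
  · intro x hx0 hxT hxb
    let z : Fin (N + 1) → L := fun i => ⟨x i, hcl _ (hxT i)⟩
    have hzx : ∀ i, algebraMap L K (z i) = x i := fun i => rfl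
    have hz0 : z ≠ 0 := by
      intro h
      apply hx0
      funext i
      rw [← hzx, h]
      simp
    obtain ⟨H, hHd, hH⟩ := exists_small (L := L) (K := K) (m := m) hnN ha' (y := z)
      (H := IQ a hnN m x) (IQ_natDegree ha hnN m x) (fun j => by
        have h1 := IQ_eval (K := K) ha hnN hxb j
        exact h1)
    obtain ⟨Q, hQ, c, p, hcp⟩ := hAx z hz0 H hHd hH
    refine ⟨_, ⟨Q, hQ, rfl⟩, algebraMap L K c, p.map (algebraMap L K), ?_⟩
    have h1 : IQ a hnN m x = H.map (algebraMap L K) := by
      refine Polynomial.eq_of_natDegree_lt_card_of_eval_eq _ _ ha (fun i => ?_) ?_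
      · have h2 := IQ_eval (K := K) ha hnN hxb i
        have h3 : (H.map (algebraMap L K)).eval (algebraMap L K (a' i)) = x i ^ m := by
          rw [Polynomial.eval_map_algebraMap, Polynomial.aeval_algebraMap_apply,
            Polynomial.coe_aeval_eq_eval, ← hH, map_pow, hzx]
        exact h2.trans h3.symm
      · rw [Fintype.card_fin]
        have h2 := IQ_natDegree ha hnN m x
        have h3 : (H.map (algebraMap L K)).natDegree ≤ n :=
          (Polynomial.natDegree_map_le).trans hHd
        exact max_lt (by omega) (by omega)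
    rw [h1, hcp]
    simp only [Polynomial.map_mul, Polynomial.map_pow, Polynomial.map_C]

/-- density for all polynomials -/
theorem dense_all {M : Type} [Field M] [Algebra K M] {y : Fin (N + 1) → M} {k0 : Subfield K}
    {T : Finset K} (hT : ∀ G : MvPolynomial (Fin (N + 1)) K, IsForm G →
      (∀ x ∈ VarPts K y, (∀ i, x i ∈ Subfield.closure ((k0 : Set K) ∪ (T : Set K))) →
        val x G = 0) → val y G = 0) (G : MvPolynomial (Fin (N + 1)) K)
    (hG : ∀ x ∈ VarPts K y, (∀ i, x i ∈ Subfield.closure ((k0 : Set K) ∪ (T : Set K))) →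
      val x G = 0) : val y G = 0 := by
  classical
  have hcomp : ∀ e, val y (MvPolynomial.homogeneousComponent e G) = 0 := by
    intro e
    refine hT _ ⟨e, MvPolynomial.homogeneousComponent_isHomogeneous e G⟩ fun x hx hxT => ?_
    -- a polynomial in one variable
    let P : Polynomial K := ∑ d ∈ Finset.range (G.totalDegree + 1),
      Polynomial.C (val x (MvPolynomial.homogeneousComponent d G)) * Polynomial.X ^ d
    have hP : ∀ t : ℕ, P.eval ((t : K) + 1) = 0 := by
      intro t
      have ht : ((t : K) + 1) ≠ 0 := by exact_mod_cast Nat.succ_ne_zero t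
      have h1 := hG (fun i => ((t : K) + 1) * x i) ⟨?_, ?_⟩ (fun i => mul_mem ?_ (hxT i))
      · have h2 : val (fun i => ((t : K) + 1) * x i) G = ∑ d ∈ Finset.range (G.totalDegree + 1),
            val (fun i => ((t : K) + 1) * x i) (MvPolynomial.homogeneousComponent d G) := by
          conv_lhs => rw [← MvPolynomial.sum_homogeneousComponent G]
          unfold val
          rw [map_sum]
        rw [h2] at h1
        rw [← h1]
        simp only [P]
        rw [Polynomial.eval_finsetSum]
        refine Finset.sum_congr rfl fun d _ => ?_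
        rw [val_smul (MvPolynomial.homogeneousComponent_isHomogeneous d G), Polynomial.eval_mul,
          Polynomial.eval_C, Polynomial.eval_pow, Polynomial.eval_X, mul_comm]
      · intro h0
        apply hx.1
        funext i
        have h1 := congrFun h0 i
        exact (mul_eq_zero.1 h1).resolve_left ht
      · rintro F ⟨d, hd⟩ hF
        rw [val_smul hd, hx.2 F ⟨d, hd⟩ hF, mul_zero]
      · exact add_mem (natCast_mem _ t) (one_mem _)
    have hP0 : P = 0 := by
      refine Polynomial.eq_zero_of_infinite_isRoot P (Set.Infinite.mono (s := Set.range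
        fun t : ℕ => ((t : K) + 1)) ?_ (Set.infinite_range_of_injective fun s t h => ?_))
      · rintro _ ⟨t, rfl⟩
        exact hP t
      · have h1 : (s : K) = t := add_right_cancel h
        exact_mod_cast h1
    by_cases he : e ∈ Finset.range (G.totalDegree + 1)
    · have h1 : P.coeff e = val x (MvPolynomial.homogeneousComponent e G) := by
        simp only [P]
        rw [Polynomial.finsetSum_coeff, Finset.sum_eq_single e]
        · rw [Polynomial.coeff_C_mul_X_pow, if_pos rfl]
        · intro d _ hd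
          rw [Polynomial.coeff_C_mul_X_pow, if_neg (Ne.symm hd)]
        · exact fun h => absurd he h
      rw [← h1, hP0, Polynomial.coeff_zero]
    · rw [Finset.mem_range, not_lt] at he
      rw [MvPolynomial.homogeneousComponent_eq_zero _ _ (by omega)]
      unfold val
      rw [map_zero]
  rw [← MvPolynomial.sum_homogeneousComponent G]
  unfold val
  rw [map_sum]
  exact Finset.sum_eq_zero fun e _ => hcomp e

/-- **The structure.** -/
theorem str_of_dense_over (hm : 2 ≤ m) (hnN : n ≤ N)
    {a : Fin (N + 1) → K} (ha : Function.Injective a) {k0 : Subfield K} (hk : Moving k0 a n)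
    {M : Type} [Field M] [Algebra K M] {y : Fin (N + 1) → M} (hy0 : y ≠ 0)
    (hy : ∀ l : Rel a n, val y (buchi a n m l) = 0) (hd : DenseOver y k0) :
    ∃ (q : Polynomial M) (c : M) (G0 : Polynomial K) (ζ : Fin (N + 1) → K), q.Monic ∧ c ≠ 0 ∧
      G0 ≠ 0 ∧ q.natDegree * m + G0.natDegree ≤ n ∧ (∀ i, ζ i ^ m = G0.eval (a i)) ∧
      ∀ i, y i = c * q.eval (algebraMap K M (a i)) * algebraMap K M (ζ i) := by
  classical
  obtain ⟨T, hT⟩ := hd
  obtain ⟨A, hA, hA0, hAx⟩ := classes_fg (m := m) hm hnN ha hk T
  have hrel : ∀ x ∈ VarPts K y, ∀ l : Rel a n, val x (buchi a n m l) = 0 := fun x hx l =>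
    hx.2 _ (isForm_buchi a n m l) (hy l)
  obtain ⟨Q, hQA, R, c, hc, hR⟩ := gen_class hm hnN ha hy0 hy
    (X := {x | x ∈ VarPts K y ∧ ∀ i, x i ∈ Subfield.closure ((k0 : Set K) ∪ (T : Set K))})
    (fun G hG => dense_all hT G fun x hx hxT => hG x ⟨hx, hxT⟩) hA hA0
    (fun x hx => hAx x hx.1.1 hx.2 (hrel x hx.1))
    (fun x hx => IQ_ne (by omega) ha hnN hx.1.1 (hrel x hx.1))
  exact str_of_class hm hnN ha hy0 hy (hA0 Q hQA).1 hc hR

end

end Pool.Agent.U742.WD
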