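import Pool.Agent.U742.HS.Fr
import Pool.Agent.Y216.SV.Hul
import Pool.Agent.Y216.SV.Hsp2

/-!
Subvarieties of the power value varieties with generic polynomial in one of finitely many classes
modulo `m`-th powers: the structure.
-/

set_option autoImplicit false

namespace Pool.Agent.U742.WD

open FF Pool.Agent.W603.LV Pool.Agent.W602.GT Pool.Agent.Y190.BV Pool.Agent.Y190.QP
  Pool.Agent.Y190.GN Pool.Agent.Y216.SV Pool.Agent.U742.HS

variable {k : Type} [Field k] {N n m w : ℕ}

/-- the interpolation polynomial of the `m`-th powers -/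
noncomputable def IQ {R : Type} [CommRing R] [Algebra k R] (a : Fin (N + 1) → k) (hn : n ≤ N)
    (m : ℕ) (v : Fin (N + 1) → R) : Polynomial R :=
  ∑ s : Fin (n + 1), Polynomial.C (v (Fin.castLE (by omega) s) ^ m) *
    (bas a hn s).map (algebraMap k R)

theorem IQ_map {R S : Type} [CommRing R] [Algebra k R] [CommRing S] [Algebra k S]
    (a : Fin (N + 1) → k) (hn : n ≤ N) (m : ℕ) (φ : R →ₐ[k] S) (v : Fin (N + 1) → R) :
    (IQ a hn m v).map (φ : R →+* S) = IQ a hn m (fun i => φ (v i)) := by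
  unfold IQ
  rw [Polynomial.map_sum]
  refine Finset.sum_congr rfl fun s _ => ?_
  rw [Polynomial.map_mul, Polynomial.map_C, Polynomial.map_map, φ.comp_algebraMap, map_pow]
  rfl

theorem IQ_natDegree {K : Type} [Field K] [Algebra k K] {a : Fin (N + 1) → k}
    (ha : Function.Injective a) (hn : n ≤ N) (m : ℕ) (v : Fin (N + 1) → K) :
    (IQ a hn m v).natDegree ≤ n :=
  intp_natDegree ha hn (fun i => v i ^ m)

theorem IQ_eval {K : Type} [Field K] [Algebra k K] {a : Fin (N + 1) → k}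
    (ha : Function.Injective a) (hn : n ≤ N) {y : Fin (N + 1) → K}
    (hy : ∀ l : Rel a n, val y (buchi a n m l) = 0) (i : Fin (N + 1)) :
    (IQ a hn m y).eval (algebraMap k K (a i)) = y i ^ m :=
  intp_eval ha hn m hy i

theorem IQ_ne {K : Type} [Field K] [Algebra k K] {a : Fin (N + 1) → k} (hm : 1 ≤ m)
    (ha : Function.Injective a) (hn : n ≤ N) {y : Fin (N + 1) → K} (hy0 : y ≠ 0)
    (hy : ∀ l : Rel a n, val y (buchi a n m l) = 0) : IQ a hn m y ≠ 0 := by
  intro h0
  apply hy0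
  funext i
  have h1 := IQ_eval ha hn hy i
  rw [h0, Polynomial.eval_zero] at h1
  exact (pow_eq_zero_iff (by omega)).1 h1.symm

/-- the product with a fixed polynomial -/
noncomputable def PR {R : Type} [CommRing R] [Algebra k R] (a : Fin (N + 1) → k) (hn : n ≤ N)
    (m : ℕ) (Q : Polynomial k) (v : Fin (N + 1) → R) : Polynomial R :=
  IQ a hn m v * (Q.map (algebraMap k R)) ^ (m - 1)

theorem PR_map {R S : Type} [CommRing R] [Algebra k R] [CommRing S] [Algebra k S]
    (a : Fin (N + 1) → k) (hn : n ≤ N) (m : ℕ) (Q : Polynomial k) (φ : R →ₐ[k] S)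
    (v : Fin (N + 1) → R) :
    (PR a hn m Q v).map (φ : R →+* S) = PR a hn m Q (fun i => φ (v i)) := by
  unfold PR
  rw [Polynomial.map_mul, Polynomial.map_pow, IQ_map, Polynomial.map_map, φ.comp_algebraMap]

theorem PR_natDegree {K : Type} [Field K] [Algebra k K] {a : Fin (N + 1) → k} (hm : 1 ≤ m)
    (ha : Function.Injective a) (hn : n ≤ N) {Q : Polynomial k} (hQ : Q.natDegree ≤ n)
    (v : Fin (N + 1) → K) : (PR a hn m Q v).natDegree ≤ n * m := by
  unfold PR
  refine Polynomial.natDegree_mul_le.trans ?_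
  have h1 := IQ_natDegree ha hn m v
  have h2 : ((Q.map (algebraMap k K)) ^ (m - 1)).natDegree ≤ (m - 1) * n :=
    Polynomial.natDegree_pow_le.trans (Nat.mul_le_mul_left _
      (Polynomial.natDegree_map_le.trans hQ))
  obtain ⟨t, rfl⟩ : ∃ t, m = t + 1 := ⟨m - 1, by omega⟩
  simp only [Nat.add_sub_cancel] at h2 ⊢
  nlinarith

/-- the minors -/
noncomputable def mr (a : Fin (N + 1) → k) (hn : n ≤ N) (m D : ℕ) (Q : Polynomial k)
    (e : Fin (n + 1) → Fin (D + 1)) : MvPolynomial (Fin (N + 1)) k :=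
  ((Mt m D n (PR a hn m Q (fun i => (MvPolynomial.X i : MvPolynomial (Fin (N + 1)) k)))).submatrix
    e id).det

theorem val_mr {K : Type} [Field K] [Algebra k K] (a : Fin (N + 1) → k) (hn : n ≤ N)
    (m D : ℕ) (Q : Polynomial k) (e : Fin (n + 1) → Fin (D + 1)) (v : Fin (N + 1) → K) :
    val v (mr a hn m D Q e) = ((Mt m D n (PR a hn m Q v)).submatrix e id).det := by
  unfold mr val
  set φ := (MvPolynomial.aeval v : MvPolynomial (Fin (N + 1)) k →ₐ[k] K)
  have h1 := RingHom.map_det (φ : MvPolynomial (Fin (N + 1)) k →+* K)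
    ((Mt m D n (PR a hn m Q (fun i => (MvPolynomial.X i : MvPolynomial (Fin (N + 1)) k)))).submatrix
      e id)
  refine Eq.trans h1 ?_
  congr 1
  have h2 : PR a hn m Q v = (PR a hn m Q (fun i => (MvPolynomial.X i :
      MvPolynomial (Fin (N + 1)) k))).map (φ : MvPolynomial (Fin (N + 1)) k →+* K) := by
    rw [PR_map]
    simp only [φ, MvPolynomial.aeval_X]
  rw [h2, ← Mt_map]
  rfl

/-- **One of finitely many classes.** -/
theorem gen_class [CharZero k] (hm : 2 ≤ m) (hn : n ≤ N)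
    {a : Fin (N + 1) → k} (ha : Function.Injective a) {K : Type} [Field K]
    [Algebra k K] {y : Fin (N + 1) → K} (hy0 : y ≠ 0)
    (hy : ∀ l : Rel a n, val y (buchi a n m l) = 0) {X : Set (Fin (N + 1) → k)}
    (hX : ∀ G : MvPolynomial (Fin (N + 1)) k, (∀ x ∈ X, val x G = 0) → val y G = 0)
    {A : Set (Polynomial k)} (hA : A.Finite) (hA0 : ∀ Q ∈ A, Q ≠ 0 ∧ Q.natDegree ≤ n)
    (hXA : ∀ x ∈ X, ∃ Q ∈ A, ∃ (c : k) (p : Polynomial k), IQ a hn m x =
      Polynomial.C c * (p ^ m * Q)) (hXn : ∀ x ∈ X, IQ a hn m x ≠ 0) :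
    ∃ Q ∈ A, ∃ (R : Polynomial K) (c : K), c ≠ 0 ∧
      IQ a hn m y * (Q.map (algebraMap k K)) ^ (m - 1) = Polynomial.C c * R ^ m := by
  classical
  have hcK : CharZero K := charZero_of_injective_algebraMap (algebraMap k K).injective
  have h2 : ∃ Q ∈ A, ∀ e : Fin (n + 1) → Fin (n * m + n + 1),
      val y (mr a hn m (n * m + n) Q e) = 0 := by
    by_contra hcon
    push Not at hcon
    choose! e he using hcon
    have h3 : val y (∏ Q ∈ hA.toFinset, mr a hn m (n * m + n) Q (e Q)) ≠ 0 := by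
      unfold val
      rw [map_prod]
      exact Finset.prod_ne_zero_iff.2 fun Q hQ => he Q (hA.mem_toFinset.1 hQ)
    apply h3
    refine hX _ fun x hx => ?_
    obtain ⟨Q, hQ, c, p, hp⟩ := hXA x hx
    unfold val
    rw [map_prod]
    refine Finset.prod_eq_zero (hA.mem_toFinset.2 hQ) ?_
    have h4 := val_mr a hn m (n * m + n) Q (e Q) x
    unfold val at h4
    rw [h4]
    have hc : c ≠ 0 := by
      rintro rfl
      apply hXn x hx
      rw [hp, Polynomial.C_0, zero_mul]
    have hp0 : p ≠ 0 := by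
      rintro rfl
      apply hXn x hx
      rw [hp, zero_pow (by omega), zero_mul, mul_zero]
    have hPe : PR a hn m Q x = Polynomial.C c * (p * Q) ^ m := by
      unfold PR
      rw [hp, Algebra.algebraMap_self, Polynomial.map_id]
      obtain ⟨t, rfl⟩ : ∃ t, m = t + 1 := ⟨m - 1, by omega⟩
      simp only [Nat.add_sub_cancel]
      ring
    have hpQ : p * Q ≠ 0 := mul_ne_zero hp0 (hA0 Q hQ).1
    refine minor_of_op hpQ ?_ ?_ (e Q)
    · have h5 := PR_natDegree (m := m) (by omega) ha hn (hA0 Q hQ).2 x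
      rw [hPe, Polynomial.natDegree_C_mul hc, Polynomial.natDegree_pow, mul_comm m] at h5
      exact Nat.le_of_mul_le_mul_right h5 (by omega)
    · rw [hPe]
      have h6 := op_pow (m := m) (by omega) (p * Q)
      unfold op at h6 ⊢
      rw [Polynomial.derivative_C_mul]
      linear_combination (Polynomial.C c) * h6
  obtain ⟨Q, hQA, hQ⟩ := h2
  obtain ⟨R, hR0, -, hR⟩ := op_of_minor (m := m) (D := n * m + n) (n := n)
    (P := PR a hn m Q y)
    (Nat.add_le_add_right (PR_natDegree (by omega) ha hn (hA0 Q hQA).2 y) n) (fun e => by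
      rw [← val_mr]
      exact hQ e)
  have hP0 : PR a hn m Q y ≠ 0 :=
    mul_ne_zero (IQ_ne (by omega) ha hn hy0 hy)
      (pow_ne_zero _ (Polynomial.map_ne_zero (hA0 Q hQA).1))
  obtain ⟨c, hc, hPc⟩ := pow_of_op (by omega) hP0 hR0 hR
  exact ⟨Q, hQA, R, c, hc, hPc⟩

/-- **The structure.** -/
theorem str_of_class [IsAlgClosed k] (hm : 2 ≤ m) (hn : n ≤ N)
    {a : Fin (N + 1) → k} (ha : Function.Injective a) {K : Type} [Field K]
    [Algebra k K] {y : Fin (N + 1) → K} (hy0 : y ≠ 0)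
    (hy : ∀ l : Rel a n, val y (buchi a n m l) = 0)
    {H0 : Polynomial k} (hH0 : H0 ≠ 0) {R : Polynomial K} {c : K} (hc : c ≠ 0)
    (hR : IQ a hn m y * (H0.map (algebraMap k K)) ^ (m - 1) = Polynomial.C c * R ^ m) :
    ∃ (q : Polynomial K) (c : K) (G0 : Polynomial k) (ζ : Fin (N + 1) → k), q.Monic ∧ c ≠ 0 ∧
      G0 ≠ 0 ∧ q.natDegree * m + G0.natDegree ≤ n ∧ (∀ i, ζ i ^ m = G0.eval (a i)) ∧
      ∀ i, y i = c * q.eval (algebraMap k K (a i)) * algebraMap k K (ζ i) := by
  classical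
  obtain ⟨S, G, hSG, hfree⟩ := exists_free (m := m) (by omega) _ _ hH0 le_rfl
  have hS : S ≠ 0 := by
    rintro rfl
    rw [zero_pow (by omega), zero_mul] at hSG
    exact hH0 hSG
  have hG : G ≠ 0 := by
    rintro rfl
    rw [mul_zero] at hSG
    exact hH0 hSG
  rw [hSG] at hR
  have hyI := IQ_ne (by omega) ha hn hy0 hy
  obtain ⟨p, hp, hyp⟩ := free_str (by omega) hS hG hfree hyI hc hR
  -- a monic polynomial
  set u := p.leadingCoeff with hu
  have hu0 : u ≠ 0 := Polynomial.leadingCoeff_ne_zero.2 hp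
  let q : Polynomial K := Polynomial.C u⁻¹ * p
  have hq : q.Monic := by
    simp only [q]
    rw [Polynomial.Monic, Polynomial.leadingCoeff_mul, Polynomial.leadingCoeff_C, ← hu,
      inv_mul_cancel₀ hu0]
  have hpq : p = Polynomial.C u * q := by
    simp only [q]
    rw [← mul_assoc, ← Polynomial.C_mul, mul_inv_cancel₀ hu0, Polynomial.C_1, one_mul]
  have hqd : q.natDegree = p.natDegree := by
    rw [hpq, Polynomial.natDegree_C_mul hu0]
  -- the values
  have hζ : ∀ i, ∃ z : k, z ^ m = G.eval (a i) := fun i =>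
    IsAlgClosed.exists_pow_nat_eq _ (by omega)
  choose ζ hζ using hζ
  have hval : ∀ i, y i ^ m = c * u ^ m *
      (q.eval (algebraMap k K (a i)) * algebraMap k K (ζ i)) ^ m := by
    intro i
    rw [← IQ_eval ha hn hy i, hyp, hpq]
    simp only [Polynomial.eval_mul, Polynomial.eval_pow, Polynomial.eval_C]
    rw [Polynomial.eval_map_algebraMap, Polynomial.aeval_algebraMap_apply, mul_pow (q.eval _),
      ← map_pow, hζ i, Polynomial.coe_aeval_eq_eval]
    ring
  obtain ⟨i0, hi0⟩ := Function.ne_iff.1 hy0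
  have hi0' : y i0 ≠ 0 := hi0
  set v : Fin (N + 1) → K := fun i => q.eval (algebraMap k K (a i)) * algebraMap k K (ζ i) with hv
  have hvi0 : v i0 ≠ 0 := by
    intro h0
    apply hi0'
    have h1 := hval i0
    change y i0 ^ m = c * u ^ m * (v i0) ^ m at h1
    rw [h0, zero_pow (by omega), mul_zero] at h1
    exact (pow_eq_zero_iff (by omega)).1 h1
  set c1 : K := y i0 / v i0 with hc1
  have hc10 : c1 ≠ 0 := div_ne_zero hi0' hvi0
  have hc1m : c * u ^ m = c1 ^ m := by
    rw [hc1, div_pow, eq_div_iff (pow_ne_zero _ hvi0)]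
    exact (hval i0).symm
  have hω : ∀ i, ∃ ω : k, ω ^ m = 1 ∧ y i = c1 * v i * algebraMap k K ω := by
    intro i
    have h1 := hval i
    change y i ^ m = c * u ^ m * (v i) ^ m at h1
    rw [hc1m, ← mul_pow] at h1
    by_cases h0 : v i = 0
    · refine ⟨1, one_pow m, ?_⟩
      rw [h0, mul_zero, zero_pow (by omega)] at h1
      rw [h0, mul_zero, zero_mul]
      exact (pow_eq_zero_iff (by omega)).1 h1
    · have h2 : c1 * v i ≠ 0 := mul_ne_zero hc10 h0
      have h3 : (y i / (c1 * v i)) ^ m = algebraMap k K 1 := by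
        rw [div_pow, h1, div_self (pow_ne_zero _ h2), map_one]
      obtain ⟨ω, hω⟩ := root_const (by omega) h3
      refine ⟨ω, ?_, ?_⟩
      · apply (algebraMap k K).injective
        rw [map_pow, ← hω, h3]
      · rw [← hω, mul_div_cancel₀ _ h2]
  choose ω hω1 hω2 using hω
  refine ⟨q, c1, G, fun i => ω i * ζ i, hq, hc10, hG, ?_, fun i => ?_, fun i => ?_⟩
  · have h1 := IQ_natDegree ha hn m y
    have hG' : G.map (algebraMap k K) ≠ 0 := Polynomial.map_ne_zero hG
    rw [hyp, Polynomial.natDegree_C_mul hc, Polynomial.natDegree_mul (pow_ne_zero _ hp) hG',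
      Polynomial.natDegree_pow, Polynomial.natDegree_map] at h1
    rw [hqd, mul_comm]
    exact h1
  · rw [mul_pow, hω1, one_mul, hζ]
  · rw [hω2 i, map_mul]
    simp only [hv]
    ring

end Pool.Agent.U742.WD
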